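import Mathlib
import Pool.Agent.H44.HYB.L6

/-!
A Brooks-type bound for the (p,1)-total labelling number, and the exact Havet-Yu bound for all
`p ≥ Δ - 1`.
-/

set_option autoImplicit false

namespace Pool.Agent.Results.MP_b8729f_co.BrooksType

open Pool.Agent.H44.HYB

theorem dg_le (V : Type) [Fintype V] (G : SimpleGraph V) [DecidableRel G.Adj] (v : V) :
    dg G v ≤ G.maxDegree := by
  classical
  refine le_trans (le_of_eq ?_) (G.degree_le_maxDegree v)
  unfold dg
  rw [← SimpleGraph.card_neighborFinset_eq_degree]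
  congr 1
  ext u
  simp

/-- (1) Brooks-type bound: a finite simple graph `G` of maximum degree `Δ ≥ 4` without a complete
subgraph on `Δ + 1` vertices has, for every `p ≥ 1`, a `(p,1)`-total labelling with the labels
`0, ..., 2Δ + p - 2`.
(2) The exact Havet-Yu bound for large `p`: every finite simple graph of maximum degree `Δ ≥ 4`
has, for every `p ≥ Δ - 1`, a `(p,1)`-total labelling with the labels `0, ..., Δ + 2p - 1`. -/
theorem result :
    (∀ (V : Type) [Fintype V] (G : SimpleGraph V) [DecidableRel G.Adj] (p : ℕ), 1 ≤ p →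
      4 ≤ G.maxDegree → G.CliqueFree (G.maxDegree + 1) →
      ∃ (fV : V → ℕ) (fE : Sym2 V → ℕ),
        (∀ v : V, fV v ≤ 2 * G.maxDegree + p - 2) ∧
        (∀ e ∈ G.edgeSet, fE e ≤ 2 * G.maxDegree + p - 2) ∧
        (∀ u v : V, G.Adj u v → fV u ≠ fV v) ∧
        (∀ u v : V, G.Adj u v → (p : ℤ) ≤ |(fV u : ℤ) - (fE s(u, v) : ℤ)|) ∧
        (∀ u v w : V, G.Adj u v → G.Adj u w → v ≠ w → fE s(u, v) ≠ fE s(u, w))) ∧
    (∀ (V : Type) [Fintype V] (G : SimpleGraph V) [DecidableRel G.Adj] (p : ℕ),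
      4 ≤ G.maxDegree → G.maxDegree ≤ p + 1 →
      ∃ (fV : V → ℕ) (fE : Sym2 V → ℕ),
        (∀ v : V, fV v ≤ G.maxDegree + 2 * p - 1) ∧
        (∀ e ∈ G.edgeSet, fE e ≤ G.maxDegree + 2 * p - 1) ∧
        (∀ u v : V, G.Adj u v → fV u ≠ fV v) ∧
        (∀ u v : V, G.Adj u v → (p : ℤ) ≤ |(fV u : ℤ) - (fE s(u, v) : ℤ)|) ∧
        (∀ u v w : V, G.Adj u v → G.Adj u w → v ≠ w → fE s(u, v) ≠ fE s(u, w))) := by
  refine ⟨?_, ?_⟩
  · intro V _ G _ p _ h4 hK
    obtain ⟨d, hd⟩ : ∃ d, G.maxDegree = d + 2 := ⟨G.maxDegree - 2, by omega⟩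
    have h := tha (G := G) (d := d) (by omega) (fun v => (dg_le V G v).trans (le_of_eq hd))
      (by rw [hd] at hK; exact hK) p
    have e : 2 * G.maxDegree + p - 2 = 2 * d + 2 + p := by omega
    rw [e]
    exact h
  · intro V _ G _ p h4 hp
    obtain ⟨d, hd⟩ : ∃ d, G.maxDegree = d + 2 := ⟨G.maxDegree - 2, by omega⟩
    have h := glu (G := G) (d := d) (by omega) (fun v => (dg_le V G v).trans (le_of_eq hd))
      p (by omega)
    have e : G.maxDegree + 2 * p - 1 = d + 1 + 2 * p := by omega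
    rw [e]
    exact h

end Pool.Agent.Results.MP_b8729f_co.BrooksType
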