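import Mathlib
import Pool.Agent.H71.DN.Dir

/-!
The Havet-Yu conjecture (exact bound `Δ + 2p - 1`) for dense graphs: nearly regular graphs with
`p ≥ 2`, irregular graphs with all `p ≥ 1`, quasirandom graphs, and almost all graphs.
-/

set_option autoImplicit false

namespace Pool.Agent.H71.Parked.OffDenseFour

open Finset

/-- A `(p,1)`-total labeling of `G` with labels in `{0, ..., Δ(G) + 2p - 1}`. -/
def HavetYu {V : Type} [Fintype V] (G : SimpleGraph V) [DecidableRel G.Adj] (p : ℕ) : Prop :=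
  ∃ (fV : V → ℕ) (fE : Sym2 V → ℕ),
    (∀ v : V, fV v ≤ G.maxDegree + 2 * p - 1) ∧
    (∀ e ∈ G.edgeSet, fE e ≤ G.maxDegree + 2 * p - 1) ∧
    (∀ u v : V, G.Adj u v → fV u ≠ fV v) ∧
    (∀ u v : V, G.Adj u v → (p : ℤ) ≤ |(fV u : ℤ) - (fE s(u, v) : ℤ)|) ∧
    (∀ u v w : V, G.Adj u v → G.Adj u w → v ≠ w → fE s(u, v) ≠ fE s(u, w))

open Classical in
theorem result :
    (∀ ε : ℝ, 0 < ε → ε ≤ 1 → ∃ (ρ : ℝ) (n₀ : ℕ), 0 < ρ ∧
      ∀ (V : Type) [Fintype V] (G : SimpleGraph V) (p k : ℕ),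
        n₀ ≤ Fintype.card V → 2 ≤ p →
        (1 / 2 + ε) * Fintype.card V ≤ G.minDegree →
        (G.maxDegree : ℝ) ≤ G.minDegree + ρ * Fintype.card V →
        G.Colorable k → (k : ℝ) ≤ (2 / 3 - ε) * G.maxDegree →
        (∃ C : Finset V, C.card = 3 ∧ ∀ u ∈ C, ∀ v ∈ C, ¬ G.Adj u v) →
        HavetYu G p) ∧
    (∀ ε : ℝ, 0 < ε → ε ≤ 1 → ∃ (ρ : ℝ) (n₀ : ℕ), 0 < ρ ∧
      ∀ (V : Type) [Fintype V] (G : SimpleGraph V) (p k : ℕ),
        n₀ ≤ Fintype.card V → 1 ≤ p →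
        (1 / 2 + ε) * Fintype.card V ≤ G.minDegree →
        (Fintype.card V : ℝ) ≤
          ∑ v, min ((G.maxDegree : ℝ) - G.degree v) (ρ * Fintype.card V) →
        G.Colorable k → (k : ℝ) ≤ (1 - ε) * G.maxDegree →
        HavetYu G p) ∧
    (∀ q : ℝ, 0 < q → q < 1 → ∃ (θ : ℝ) (n₀ : ℕ), 0 < θ ∧
      ∀ (V : Type) [Fintype V] (G : SimpleGraph V) (p : ℕ),
        n₀ ≤ Fintype.card V → 2 ≤ p →
        (∀ v, |(G.degree v : ℝ) - q * Fintype.card V| ≤ θ * Fintype.card V) →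
        (∀ A B : Finset V,
          |(((A ×ˢ B).filter fun x => G.Adj x.1 x.2).card : ℝ) - q * A.card * B.card| ≤
            θ * (Fintype.card V : ℝ) ^ 2) →
        HavetYu G p) ∧
    Filter.Tendsto (fun n : ℕ =>
      (Nat.card {G : SimpleGraph (Fin n) // ∀ p : ℕ, 2 ≤ p → HavetYu G p} : ℝ) /
        Nat.card (SimpleGraph (Fin n))) Filter.atTop (nhds 1) := by
  refine ⟨?_, ?_, ?_, ?_⟩
  · intro ε hε hε1
    obtain ⟨θ, ρ, n0, hθ, hρ, h⟩ := H71.DN.mainA ε hε hε1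
    exact ⟨ρ, n0, hρ, fun V _ G p k hn hp hδ hreg hcol hk hC =>
      h V G p k hn hp hreg (H71.DN.dirac_rob G ε θ hθ.le hδ) hcol hk hC⟩
  · intro ε hε hε1
    obtain ⟨θ, ρ, n0, hθ, hρ, h⟩ := H71.DN.mainB ε hε hε1
    exact ⟨ρ, n0, hρ, fun V _ G p k hn hp hδ hdef hcol hk =>
      h V G p k hn hp hdef (H71.DN.dirac_rob G ε θ hθ.le hδ) hcol hk⟩
  · intro q hq0 hq1
    obtain ⟨θ, n0, hθ, h⟩ := H71.DN.mainQ q hq0 hq1
    exact ⟨θ, n0, hθ, fun V _ G p hn hp h1 h2 =>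
      h V G p hn hp ⟨fun v => by rw [H71.DN.dg_eq]; exact h1 v, fun A B => h2 A B⟩⟩
  · obtain ⟨θ, n0, hθ, h⟩ := H71.DN.mainQ (1 / 2) (by norm_num) (by norm_num)
    refine H71.DN.rg2 (fun n G => ∀ p : ℕ, 2 ≤ p → HavetYu G p) θ hθ n0 ?_
    intro n hn G hQ p hp
    exact h (Fin n) G p (by rw [Fintype.card_fin]; exact hn) hp hQ

end Pool.Agent.H71.Parked.OffDenseFour
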