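import Mathlib
import Pool.Agent.H71.DR.MnR

/-!
The Havet-Yu conjecture (exact bound `Δ + 2p - 1`, all `p ≥ 1`) for all large robust expanders with
minimum degree at least `α n` and maximum degree at most `(1 - α) n`.
-/

set_option autoImplicit false

namespace Pool.Agent.H71.Parked.OffDenseGraphs

open Finset

/-- A `(p,1)`-total labeling of `G` with labels in `{0, ..., Δ(G) + 2p - 1}`. -/
def HavetYu {V : Type} [Fintype V] (G : SimpleGraph V) [DecidableRel G.Adj] (p : ℕ) : Prop :=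
  ∃ (fV : V → ℕ) (fE : Sym2 V → ℕ),
    (∀ v : V, fV v ≤ G.maxDegree + 2 * p - 1) ∧
    (∀ e ∈ G.edgeSet, fE e ≤ G.maxDegree + 2 * p - 1) ∧
    (∀ u v : V, G.Adj u v → fV u ≠ fV v) ∧
    (∀ u v : V, G.Adj u v → (p : ℤ) ≤ |(fV u : ℤ) - (fE s(u, v) : ℤ)|) ∧
    (∀ u v w : V, G.Adj u v → G.Adj u w → v ≠ w → fE s(u, v) ≠ fE s(u, w))

open Classical in
/-- `G` is a robust `(ν, τ)`-expander: for every `S` with `τ n ≤ |S| ≤ (1 - τ) n` at least
`|S| + ν n` vertices have at least `ν n` neighbours in `S`. -/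
def RobustExpander {V : Type} [Fintype V] (G : SimpleGraph V) (ν τ : ℝ) : Prop :=
  ∀ S : Finset V, τ * Fintype.card V ≤ (S.card : ℝ) →
    (S.card : ℝ) ≤ (1 - τ) * Fintype.card V →
    (S.card : ℝ) + ν * Fintype.card V ≤
      ((univ.filter fun v => ν * Fintype.card V ≤
        ((S.filter fun u => G.Adj v u).card : ℝ)).card : ℝ)

theorem result (α ν : ℝ) (hα : 0 < α) (hν : 0 < ν) :
    ∃ n₀ : ℕ, ∀ (V : Type) [Fintype V] (G : SimpleGraph V) [DecidableRel G.Adj] (p : ℕ),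
      n₀ ≤ Fintype.card V → 1 ≤ p →
      α * Fintype.card V ≤ G.minDegree →
      (G.maxDegree : ℝ) ≤ (1 - α) * Fintype.card V →
      RobustExpander G ν (α / 128) →
      HavetYu G p := by
  obtain ⟨n0, h⟩ := H71.DR.mainR α ν hα hν
  exact ⟨n0, fun V _ G _ p hn hp hδ hΔ hR => h V G p hn hp hδ hΔ hR⟩

end Pool.Agent.H71.Parked.OffDenseGraphs
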