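import Mathlib
import Pool.Agent.H71.SX.MnS

/-!
The Havet-Yu conjecture (exact bound `Δ + 2p - 1`, all `p ≥ 1`) for all expanders of small
chromatic number (in particular sparse pseudo-random graphs, from constant degree on).
-/

set_option autoImplicit false

namespace Pool.Agent.H71.Parked.OffExpanders

open Finset

/-- A `(p,1)`-total labeling of `G` with labels in `{0, ..., Δ(G) + 2p - 1}`. -/
def HavetYu {V : Type} [Fintype V] (G : SimpleGraph V) [DecidableRel G.Adj] (p : ℕ) : Prop :=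
  ∃ (fV : V → ℕ) (fE : Sym2 V → ℕ),
    (∀ v : V, fV v ≤ G.maxDegree + 2 * p - 1) ∧
    (∀ e ∈ G.edgeSet, fE e ≤ G.maxDegree + 2 * p - 1) ∧
    (∀ u v : V, G.Adj u v → fV u ≠ fV v) ∧
    (∀ u v : V, G.Adj u v → (p : ℤ) ≤ |(fV u : ℤ) - (fE s(u, v) : ℤ)|) ∧
    (∀ u v w : V, G.Adj u v → G.Adj u w → v ≠ w → fE s(u, v) ≠ fE s(u, w))

open Classical in
/-- Every set `S` of at most half of the vertices sends at least `γ Δ |S|` edges to its
complement. -/
def EdgeExpanding {V : Type} [Fintype V] (G : SimpleGraph V) [DecidableRel G.Adj] (γ : ℝ) :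
    Prop :=
  ∀ S : Finset V, 2 * S.card ≤ Fintype.card V →
    γ * G.maxDegree * S.card ≤ ((G.interedges S (univ \ S)).card : ℝ)

open Classical in
/-- For disjoint `A`, `B`: `2 e(A) + 2 e(B) + e(A ∪ B, V ∖ (A ∪ B)) ≥ γ Δ (|A| + |B|)`
(`interedges A A` counts every edge inside `A` twice). -/
def FarFromBipartite {V : Type} [Fintype V] (G : SimpleGraph V) [DecidableRel G.Adj] (γ : ℝ) :
    Prop :=
  ∀ A B : Finset V, Disjoint A B →
    γ * G.maxDegree * (A.card + B.card) ≤
      ((G.interedges A A).card : ℝ) + (G.interedges B B).card +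
        (G.interedges (A ∪ B) (univ \ (A ∪ B))).card

theorem result : ∃ (c : ℝ) (D : ℕ), 0 < c ∧
    ∀ (V : Type) [Fintype V] (G : SimpleGraph V) [DecidableRel G.Adj] (γ : ℝ) (p : ℕ),
      D ≤ G.maxDegree → 5 * G.maxDegree ≤ 2 * Fintype.card V → 1 ≤ p →
      (G.maxDegree : ℝ) ^ (-(1 / 10) : ℝ) ≤ γ →
      EdgeExpanding G γ → FarFromBipartite G γ →
      G.Colorable ⌊c * γ ^ 2 * G.maxDegree⌋₊ →
      HavetYu G p := by
  obtain ⟨c, D, hc, h⟩ := H71.SX.mainS
  refine ⟨c, D, hc, ?_⟩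
  intro V _ G _ γ p hD hn hp hγ hE hB hcol
  have hee : ∀ (A B : Finset V), H71.DN.ee G A B = (G.interedges A B).card := by
    intro A B
    unfold H71.DN.ee SimpleGraph.interedges Rel.interedges
    refine congrArg Finset.card ?_
    ext x
    simp only [mem_filter, mem_product]
  refine h V G γ p _ hD hn hp hγ ?_ ?_ hcol (Nat.floor_le ?_)
  · intro S hS
    rw [hee]
    exact hE S hS
  · intro A B hAB
    rw [hee, hee, hee]
    exact hB A B hAB
  · positivity

end Pool.Agent.H71.Parked.OffExpanders
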