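import Mathlib
import Pool.Agent.H71.DR.MnR
import Pool.Agent.H71.HL.MnH

/-!
The Havet-Yu conjecture (exact bound `Δ + 2p - 1`, all `p ≥ 1`) for all large robust expanders of linear degree,
and for graphs with maximum degree at least `(1/2 + ε) n` and no condition on the minimum degree: total colourings with
`Δ + 2` colours for all of them, and the bound for all `p` if there is no near-clique with about `Δ` vertices.
-/

set_option autoImplicit false

namespace Pool.Agent.H71.Parked.OffLargeDegree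

open Finset

/-- A `(p,1)`-total labeling of `G` with labels in `{0, ..., Δ(G) + 2p - 1}`. -/
def HavetYu {V : Type} [Fintype V] (G : SimpleGraph V) [DecidableRel G.Adj] (p : ℕ) : Prop :=
  ∃ (fV : V → ℕ) (fE : Sym2 V → ℕ),
    (∀ v : V, fV v ≤ G.maxDegree + 2 * p - 1) ∧
    (∀ e ∈ G.edgeSet, fE e ≤ G.maxDegree + 2 * p - 1) ∧
    (∀ u v : V, G.Adj u v → fV u ≠ fV v) ∧
    (∀ u v : V, G.Adj u v → (p : ℤ) ≤ |(fV u : ℤ) - (fE s(u, v) : ℤ)|) ∧
    (∀ u v w : V, G.Adj u v → G.Adj u w → v ≠ w → fE s(u, v) ≠ fE s(u, w))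

open Classical in
/-- `G` is a robust `(ν, τ)`-expander: for every `S` with `τ n ≤ |S| ≤ (1 - τ) n` at least
`|S| + ν n` vertices have at least `ν n` neighbours in `S`. -/
def RobustExpander {V : Type} [Fintype V] (G : SimpleGraph V) (ν τ : ℝ) : Prop :=
  ∀ S : Finset V, τ * Fintype.card V ≤ (S.card : ℝ) →
    (S.card : ℝ) ≤ (1 - τ) * Fintype.card V →
    (S.card : ℝ) + ν * Fintype.card V ≤
      ((univ.filter fun v => ν * Fintype.card V ≤
        ((S.filter fun u => G.Adj v u).card : ℝ)).card : ℝ)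

/-- No near-clique with about `Δ` vertices: every vertex set `S` with `|S| ≤ (1 + ε) Δ` spans at most `(1 - ε) Δ² / 2` edges
(`interedges S S` counts each of them twice). -/
def NoNearClique {V : Type} [Fintype V] (G : SimpleGraph V) [DecidableRel G.Adj] (ε : ℝ) : Prop :=
  ∀ S : Finset V, (S.card : ℝ) ≤ (1 + ε) * (G.maxDegree : ℝ) →
    ((G.interedges S S).card : ℝ) ≤ (1 - ε) * (G.maxDegree : ℝ) ^ 2

theorem result :
    (∀ α ν : ℝ, 0 < α → 0 < ν → ∃ n₀ : ℕ, ∀ (V : Type) [Fintype V] (G : SimpleGraph V)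
      [DecidableRel G.Adj] (p : ℕ), n₀ ≤ Fintype.card V → 1 ≤ p →
      α * Fintype.card V ≤ G.minDegree →
      (G.maxDegree : ℝ) ≤ (1 - α) * Fintype.card V →
      RobustExpander G ν (α / 128) → HavetYu G p) ∧
    (∀ ε : ℝ, 0 < ε → ∃ n₀ : ℕ, ∀ (V : Type) [Fintype V] (G : SimpleGraph V)
      [DecidableRel G.Adj], n₀ ≤ Fintype.card V →
      (1 / 2 + ε) * Fintype.card V ≤ (G.maxDegree : ℝ) →
      HavetYu G 1 ∧ (NoNearClique G ε → ∀ p : ℕ, 1 ≤ p → HavetYu G p)) := by
  refine ⟨fun α ν hα hν => ?_, fun ε hε => ?_⟩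
  · obtain ⟨n0, h⟩ := H71.DR.mainR α ν hα hν
    exact ⟨n0, fun V _ G _ p hn hp hδ hΔ hR => h V G p hn hp hδ hΔ hR⟩
  · obtain ⟨n0, h⟩ := H71.HL.mnh (min ε (1 / 4)) (lt_min hε (by norm_num)) (min_le_right _ _)
    refine ⟨n0, fun V _ G _ hn hΔ => ?_⟩
    have hΔ' : (1 / 2 + min ε (1 / 4)) * Fintype.card V ≤ (G.maxDegree : ℝ) := by
      refine le_trans (mul_le_mul_of_nonneg_right ?_ (Nat.cast_nonneg _)) hΔ
      have := min_le_left ε (1 / 4)
      linarith
    refine ⟨h V G 1 hn le_rfl hΔ' (Or.inl rfl), fun hS p hp => ?_⟩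
    refine h V G p hn hp hΔ' (Or.inr fun S hSc => ?_)
    have h1 := hS S (hSc.trans (mul_le_mul_of_nonneg_right (by
      have := min_le_left ε (1 / 4)
      linarith) (Nat.cast_nonneg _)))
    have h2 : H71.DN.ee G S S = (G.interedges S S).card := by
      unfold H71.DN.ee SimpleGraph.interedges Rel.interedges
      congr
    rw [h2]
    refine h1.trans (mul_le_mul_of_nonneg_right ?_ (by positivity))
    have := min_le_left ε (1 / 4)
    linarith

end Pool.Agent.H71.Parked.OffLargeDegree
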