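import Pool.Agent.H71.RO.Pd
import Pool.Agent.H71.RO.Pe
import Pool.Agent.H71.RO.Cd

/-!
# MP_28250c_lc: the exact amount of randomness of an oracle that makes the polynomial hierarchy infinite

For a probability measure `μ` on oracles, `DefLe μ m D` says that the min-entropy deficiency of `μ`
at length `m` is at most `D`. The random oracle theorem (deficiency `0`) holds for every measure
whose deficiency is at most `D(m)`, provided that for every `ε > 0` we have `D(m) ≤ 2 ^ (m ^ ε)` for
infinitely many `m`; and if this condition on `D` fails, the conclusion fails as badly as possible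
for some measure with deficiency at most `D(m)` at every `m`.
-/

set_option autoImplicit false

namespace Pool.Agent.Results.MP_28250c_lc.RandomnessThreshold

open MeasureTheory Pool.Agent.H9 Pool.Agent.H71.RO

theorem countable_poly : Countable (Polynomial ℕ) := by
  rw [← Cardinal.mk_le_aleph0_iff]
  refine (Polynomial.cardinalMk_le_max (R := ℕ)).trans ?_
  simp

theorem result (D : ℕ → ℝ) (hD : ∀ m, 0 ≤ D m) :
    ((∀ ε : ℝ, 0 < ε → ∃ᶠ m : ℕ in Filter.atTop, D m ≤ (2 : ℝ) ^ ((m : ℝ) ^ ε)) →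
      ∀ μ : Measure Oracle, IsProbabilityMeasure μ → (∀ m, DefLe μ m (D m)) →
        ∀ᵐ A ∂μ, ∀ k : ℕ, SigmaP A k ⊂ SigmaP A (k + 1) ∧
          ¬ SigmaP A (k + 1) ⊆ SigmaPoly A k) ∧
    (¬ (∀ ε : ℝ, 0 < ε → ∃ᶠ m : ℕ in Filter.atTop, D m ≤ (2 : ℝ) ^ ((m : ℝ) ^ ε)) →
      ∃ μ : Measure Oracle, IsProbabilityMeasure μ ∧ (∀ m, DefLe μ m (D m)) ∧
        ∀ᵐ A ∂μ, SigmaP A 0 = SigmaP A 1) := by
  constructor
  · intro hfreq μ _ hμ
    have hnull : ∀ (k : ℕ), ∀ᵐ A ∂μ, Lk A k ∉ SigmaPoly A k := by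
      intro k
      have := countable_poly
      have hall : ∀ᵐ A ∂μ, ∀ (q r T : Polynomial ℕ) (p : Prog),
          ¬ ∀ (n : ℕ) (as : List ℕ) (b : ℕ), as.length = k + 1 → Ev k q r T p as b n A := by
        rw [ae_all_iff]; intro q
        rw [ae_all_iff]; intro r
        rw [ae_all_iff]; intro T
        rw [ae_all_iff]; intro p
        rw [ae_iff]
        have h := null_set hμ hfreq k q r T p
        simpa only [not_not] using h
      filter_upwards [hall] with A hA hmem
      obtain ⟨q, r, T, p, h⟩ := ev_of_mem hmem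
      exact hA q r T p h
    have hnull' : ∀ᵐ A ∂μ, ∀ k, Lk A k ∉ SigmaPoly A k := by
      rw [ae_all_iff]; exact hnull
    filter_upwards [hnull'] with A hA k
    refine ⟨⟨sigmaP_mono A k, ?_⟩, ?_⟩
    · intro hsub
      exact hA k (sigma_poly A k (hsub (Lk_mem A k)))
    · intro hsub
      exact hA k (hsub (Lk_mem A k))
  · intro hnot
    push Not at hnot
    obtain ⟨ε, hε, hev⟩ := hnot
    have hev' : ∀ᶠ m : ℕ in Filter.atTop, (2 : ℝ) ^ ((m : ℝ) ^ ε) < D m := by
      simpa [Filter.not_frequently] using hev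
    obtain ⟨g, hg⟩ := exists_enum
    obtain ⟨C, m0, ν, hν, h1, h2⟩ := exists_sparse g hD hε hev'
    exact ⟨ν.map (cc g C m0), h1, h2, ae_cc g hg C m0 ν⟩

end Pool.Agent.Results.MP_28250c_lc.RandomnessThreshold
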